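import Pool.Agent.Helper35.Pos.WStar

/-!
# Biquadratic elements
-/

namespace Pool.Agent.Helper35.Pos

variable {K : Type*} [Field K] {F : Type*} [Field F] [Algebra K F]

/-- `z` lies in (the image of) `K`. -/
def InK (K : Type*) [Field K] {F : Type*} [Field F] [Algebra K F] (z : F) : Prop :=
  ∃ c : K, z = algebraMap K F c

lemma InK.add {x y : F} (hx : InK K x) (hy : InK K y) : InK K (x + y) := by
  obtain ⟨c, rfl⟩ := hx; obtain ⟨d, rfl⟩ := hy; exact ⟨c + d, by rw [map_add]⟩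

lemma InK.sub {x y : F} (hx : InK K x) (hy : InK K y) : InK K (x - y) := by
  obtain ⟨c, rfl⟩ := hx; obtain ⟨d, rfl⟩ := hy; exact ⟨c - d, by rw [map_sub]⟩

lemma InK.mul {x y : F} (hx : InK K x) (hy : InK K y) : InK K (x * y) := by
  obtain ⟨c, rfl⟩ := hx; obtain ⟨d, rfl⟩ := hy; exact ⟨c * d, by rw [map_mul]⟩

lemma InK.div {x y : F} (hx : InK K x) (hy : InK K y) : InK K (x / y) := by
  obtain ⟨c, rfl⟩ := hx; obtain ⟨d, rfl⟩ := hy; exact ⟨c / d, by rw [map_div₀]⟩

lemma InK.neg {x : F} (hx : InK K x) : InK K (-x) := by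
  obtain ⟨c, rfl⟩ := hx; exact ⟨-c, by rw [map_neg]⟩

lemma InK.pow {x : F} (hx : InK K x) (n : ℕ) : InK K (x ^ n) := by
  obtain ⟨c, rfl⟩ := hx; exact ⟨c ^ n, by rw [map_pow]⟩

lemma InK.coe (c : K) : InK K (algebraMap K F c) := ⟨c, rfl⟩

lemma InK.ofNat (n : ℕ) : InK K (n : F) := ⟨n, by rw [map_natCast]⟩

lemma InK.two : InK K (2 : F) := by simpa using InK.ofNat (K := K) (F := F) 2

lemma InK.isRad {x : F} (hx : InK K x) : IsRad K x := by
  obtain ⟨c, rfl⟩ := hx; exact .coe c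

lemma InK.isRad_of_sq {x : F} (hx : InK K (x ^ 2)) : IsRad K x := IsRad.of_sq hx.isRad

namespace Orth

variable {S : F → Prop} (hS : Orth K S) (H : RadClosed K F)

include hS H

/-- Sums of two elements with squares in `K`. -/
lemma lin2K {p q : F} (hp : InK K (p ^ 2)) (hq : InK K (q ^ 2)) (h0 : p + q ≠ 0) :
    S (p + q) := by
  obtain ⟨k, hk⟩ := H.exists_sq _ (hp.sub hq).isRad
  exact hS.lin2 H hp.isRad_of_sq hq.isRad_of_sq hk.symm h0

/-- The main case: the product of the three elements `x₁ x_j + w` is nonzero. -/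
lemma biq_aux {a p q r w : F} (ha : InK K a) (hp : InK K (p ^ 2)) (hq : InK K (q ^ 2))
    (hr : InK K (r ^ 2)) (hpqr : InK K (p * q * r))
    (hw : w ^ 2 = (a + p + q + r) * (a + p - q - r) * (a - p + q - r) * (a - p - q + r))
    (hw0 : w ≠ 0) (h1 : a + p + q + r ≠ 0)
    (e1 : (a + p + q + r) * (a + p - q - r) + w ≠ 0)
    (e2 : (a + p + q + r) * (a - p + q - r) + w ≠ 0)
    (e3 : (a + p + q + r) * (a - p - q + r) + w ≠ 0) : S (a + p + q + r) := by
  have hν : InK K (w ^ 2) := by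
    have h3 : w ^ 2 = (a ^ 2) ^ 2 + (p ^ 2) ^ 2 + (q ^ 2) ^ 2 + (r ^ 2) ^ 2
        + 2 * 2 * 2 * a * (p * q * r)
        - 2 * (a ^ 2 * (p ^ 2 + q ^ 2 + r ^ 2) + p ^ 2 * q ^ 2 + p ^ 2 * r ^ 2 + q ^ 2 * r ^ 2) := by
      rw [hw]; ring
    rw [h3]
    exact ((((((ha.pow 2).pow 2).add (hp.pow 2)).add (hq.pow 2)).add (hr.pow 2)).add
      ((((InK.two.mul .two).mul .two).mul ha).mul hpqr)).sub
      (InK.two.mul (((((ha.pow 2).mul ((hp.add hq).add hr)).add (hp.mul hq)).add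
        (hp.mul hr)).add (hq.mul hr)))
  have hwr : IsRad K w := hν.isRad_of_sq
  have f1 : S ((a + p + q + r) * (a + p - q - r) + w) := by
    have h3 : (a + p + q + r) * (a + p - q - r) + w =
        (a ^ 2 + p ^ 2 - q ^ 2 - r ^ 2) + w + 2 * (a * p - q * r) := by ring
    rw [h3] at e1 ⊢
    refine hS.sum3 H (InK.isRad (((ha.pow 2).add hp).sub hq |>.sub hr)) hwr
      (InK.isRad_of_sq ?_) ?_ e1
    · have h4 : (2 * (a * p - q * r)) ^ 2 =
        2 ^ 2 * (a ^ 2 * p ^ 2 + q ^ 2 * r ^ 2 - 2 * a * (p * q * r)) := by ring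
      rw [h4]
      exact (InK.two.pow 2).mul ((((ha.pow 2).mul hp).add (hq.mul hr)).sub
        ((InK.two.mul ha).mul hpqr))
    · rw [hw]; ring
  have f2 : S ((a + p + q + r) * (a - p + q - r) + w) := by
    have h3 : (a + p + q + r) * (a - p + q - r) + w =
        (a ^ 2 + q ^ 2 - p ^ 2 - r ^ 2) + w + 2 * (a * q - p * r) := by ring
    rw [h3] at e2 ⊢
    refine hS.sum3 H (InK.isRad (((ha.pow 2).add hq).sub hp |>.sub hr)) hwr
      (InK.isRad_of_sq ?_) ?_ e2
    · have h4 : (2 * (a * q - p * r)) ^ 2 =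
        2 ^ 2 * (a ^ 2 * q ^ 2 + p ^ 2 * r ^ 2 - 2 * a * (p * q * r)) := by ring
      rw [h4]
      exact (InK.two.pow 2).mul ((((ha.pow 2).mul hq).add (hp.mul hr)).sub
        ((InK.two.mul ha).mul hpqr))
    · rw [hw]; ring
  have f3 : S ((a + p + q + r) * (a - p - q + r) + w) := by
    have h3 : (a + p + q + r) * (a - p - q + r) + w =
        (a ^ 2 + r ^ 2 - p ^ 2 - q ^ 2) + w + 2 * (a * r - p * q) := by ring
    rw [h3] at e3 ⊢
    refine hS.sum3 H (InK.isRad (((ha.pow 2).add hr).sub hp |>.sub hq)) hwr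
      (InK.isRad_of_sq ?_) ?_ e3
    · have h4 : (2 * (a * r - p * q)) ^ 2 =
        2 ^ 2 * (a ^ 2 * r ^ 2 + p ^ 2 * q ^ 2 - 2 * a * (p * q * r)) := by ring
      rw [h4]
      exact (InK.two.pow 2).mul ((((ha.pow 2).mul hr).add (hp.mul hq)).sub
        ((InK.two.mul ha).mul hpqr))
    · rw [hw]; ring
  set E := 2 * 2 * (a ^ 3 - a * (p ^ 2 + q ^ 2 + r ^ 2) + 2 * (p * q * r)) with hE
  set G := 2 * 2 * a * w with hG
  have key : ((a + p + q + r) * (a + p - q - r) + w) * ((a + p + q + r) * (a - p + q - r) + w) *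
      ((a + p + q + r) * (a - p - q + r) + w) = w * (a + p + q + r) * (E + G) := by
    rw [hE, hG]
    linear_combination (w + (a + p + q + r) * ((a + p - q - r) + (a - p + q - r) +
      (a - p - q + r)) - (a + p + q + r) * (2 * 2 * a)) * hw
  have hprod := mul_ne_zero (mul_ne_zero e1 e2) e3
  have hEG : E + G ≠ 0 := by
    intro h3
    apply hprod
    rw [key, h3, mul_zero]
  have hSEG : S (E + G) := by
    refine hS.lin2K H (InK.pow ?_ 2) ?_ hEG
    · exact (InK.two.mul .two).mul (((ha.pow 3).sub (ha.mul ((hp.add hq).add hr))).add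
        (InK.two.mul hpqr))
    · rw [hG, mul_pow]
      exact (((InK.two.mul .two).mul ha).pow 2).mul hν
  have h5 : a + p + q + r = (((a + p + q + r) * (a + p - q - r) + w) *
      ((a + p + q + r) * (a - p + q - r) + w) *
      ((a + p + q + r) * (a - p - q + r) + w)) / (w * (E + G)) := by
    rw [key]
    field_simp
  rw [h5]
  exact hS.div hprod (mul_ne_zero hw0 hEG)
    (hS.mul _ _ (mul_ne_zero e1 e2) e3 (hS.mul _ _ e1 e2 f1 f2) f3)
    (hS.mul _ _ hw0 hEG (hS.rad _ hw0 hwr) hSEG)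

/-- **Biquadratic elements.** -/
theorem biq {a p q r : F} (ha : InK K a) (hp : InK K (p ^ 2)) (hq : InK K (q ^ 2))
    (hr : InK K (r ^ 2)) (hpqr : InK K (p * q * r)) (h1 : a + p + q + r ≠ 0) :
    S (a + p + q + r) := by
  have h2 := H.two
  have ha2 : InK K (a ^ 2) := ha.pow 2
  have h22 : InK K ((2 : F) ^ 2) := InK.two.pow 2
  -- degenerate cases
  by_cases d1 : a + p = 0
  · have h3 : a + p + q + r = q + r := by linear_combination d1
    rw [h3] at h1 ⊢; exact hS.lin2K H hq hr h1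
  by_cases d2 : a + q = 0
  · have h3 : a + p + q + r = p + r := by linear_combination d2
    rw [h3] at h1 ⊢; exact hS.lin2K H hp hr h1
  by_cases d3 : a + r = 0
  · have h3 : a + p + q + r = p + q := by linear_combination d3
    rw [h3] at h1 ⊢; exact hS.lin2K H hp hq h1
  by_cases g1 : a + p - q - r = 0
  · have h3 : a + p + q + r = 2 * a + 2 * p := by linear_combination -g1
    rw [h3] at h1 ⊢
    exact hS.lin2K H (by rw [mul_pow]; exact h22.mul ha2) (by rw [mul_pow]; exact h22.mul hp) h1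
  by_cases g2 : a - p + q - r = 0
  · have h3 : a + p + q + r = 2 * a + 2 * q := by linear_combination -g2
    rw [h3] at h1 ⊢
    exact hS.lin2K H (by rw [mul_pow]; exact h22.mul ha2) (by rw [mul_pow]; exact h22.mul hq) h1
  by_cases g3 : a - p - q + r = 0
  · have h3 : a + p + q + r = 2 * a + 2 * r := by linear_combination -g3
    rw [h3] at h1 ⊢
    exact hS.lin2K H (by rw [mul_pow]; exact h22.mul ha2) (by rw [mul_pow]; exact h22.mul hr) h1
  -- the square root `w` of the norm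
  have hν : InK K ((a + p + q + r) * (a + p - q - r) * (a - p + q - r) * (a - p - q + r)) := by
    have h3 : (a + p + q + r) * (a + p - q - r) * (a - p + q - r) * (a - p - q + r) =
        (a ^ 2) ^ 2 + (p ^ 2) ^ 2 + (q ^ 2) ^ 2 + (r ^ 2) ^ 2
        + 2 * 2 * 2 * a * (p * q * r)
        - 2 * (a ^ 2 * (p ^ 2 + q ^ 2 + r ^ 2) + p ^ 2 * q ^ 2 + p ^ 2 * r ^ 2 + q ^ 2 * r ^ 2) := by
      ring
    rw [h3]
    exact ((((((ha.pow 2).pow 2).add (hp.pow 2)).add (hq.pow 2)).add (hr.pow 2)).add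
      ((((InK.two.mul .two).mul .two).mul ha).mul hpqr)).sub
      (InK.two.mul (((((ha.pow 2).mul ((hp.add hq).add hr)).add (hp.mul hq)).add
        (hp.mul hr)).add (hq.mul hr)))
  obtain ⟨w, hw⟩ := H.exists_sq _ hν.isRad
  have hw0 : w ≠ 0 := by
    intro h3
    rw [h3] at hw
    exact mul_ne_zero (mul_ne_zero (mul_ne_zero h1 g1) g2) g3 (by rw [← hw]; ring)
  have hw' : (-w) ^ 2 = (a + p + q + r) * (a + p - q - r) * (a - p + q - r) * (a - p - q + r) := by
    rw [neg_sq]; exact hw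
  have h20 : ∀ z : F, z + z = 0 → z = 0 := by
    intro z hz
    have : 2 * z = 0 := by linear_combination hz
    exact (mul_eq_zero.mp this).resolve_left h2
  by_cases hA : ((a + p + q + r) * (a + p - q - r) + w ≠ 0 ∧
      (a + p + q + r) * (a - p + q - r) + w ≠ 0) ∧ (a + p + q + r) * (a - p - q + r) + w ≠ 0
  · exact hS.biq_aux H ha hp hq hr hpqr hw hw0 h1 hA.1.1 hA.1.2 hA.2
  by_cases hB : ((a + p + q + r) * (a + p - q - r) + -w ≠ 0 ∧
      (a + p + q + r) * (a - p + q - r) + -w ≠ 0) ∧ (a + p + q + r) * (a - p - q + r) + -w ≠ 0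
  · exact hS.biq_aux H ha hp hq hr hpqr hw' (neg_ne_zero.mpr hw0) h1 hB.1.1 hB.1.2 hB.2
  exfalso
  -- cancelling `x₁ x_i x_j`
  have canc : ∀ x y z : F, x ≠ 0 → x * y = 0 → y = 0 := fun x y _ hx hxy =>
    (mul_eq_zero.mp hxy).resolve_left hx
  set x1 := a + p + q + r with hx1
  set x2 := a + p - q - r with hx2
  set x3 := a - p + q - r with hx3
  set x4 := a - p - q + r with hx4
  have t1 : x1 + x2 ≠ 0 := by
    intro h3; apply d1; apply h20; rw [← h3, hx1, hx2]; ring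
  have t2 : x1 + x3 ≠ 0 := by
    intro h3; apply d2; apply h20; rw [← h3, hx1, hx3]; ring
  have t3 : x1 + x4 ≠ 0 := by
    intro h3; apply d3; apply h20; rw [← h3, hx1, hx4]; ring
  -- general argument for distinct indices
  have gen : ∀ y z t : F, y ≠ 0 → z ≠ 0 → x1 + t ≠ 0 → w ^ 2 = x1 * y * z * t →
      x1 * y + w = 0 → x1 * z + -w = 0 → False := by
    intro y z t hy hz ht hyzt h3 h4
    have h5 : y + z = 0 := by
      apply canc x1 _ 0 h1; linear_combination h3 + h4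
    apply ht
    have h6 : x1 * z * (x1 + t) = 0 := by
      apply canc z _ 0 hz
      have h7 : y = -z := by linear_combination h5
      rw [h7] at hyzt h3
      linear_combination hyzt + (w + x1 * z) * h4
    exact canc (x1 * z) _ 0 (mul_ne_zero h1 hz) h6
  have same : ∀ y : F, x1 * y + w = 0 → x1 * y + -w = 0 → False := by
    intro y h3 h4
    exact hw0 (h20 w (by linear_combination h3 - h4))
  have p1 : w ^ 2 = x1 * x2 * x3 * x4 := hw
  have hA' : x1 * x2 + w = 0 ∨ x1 * x3 + w = 0 ∨ x1 * x4 + w = 0 := by tauto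
  have hB' : x1 * x2 + -w = 0 ∨ x1 * x3 + -w = 0 ∨ x1 * x4 + -w = 0 := by tauto
  rcases hA' with h3 | h3 | h3 <;> rcases hB' with h4 | h4 | h4
  · exact same _ h3 h4
  · exact gen x2 x3 x4 g1 g2 t3 (by rw [p1]) h3 h4
  · exact gen x2 x4 x3 g1 g3 t2 (by rw [p1]; ring) h3 h4
  · exact gen x3 x2 x4 g2 g1 t3 (by rw [p1]; ring) h3 h4
  · exact same _ h3 h4
  · exact gen x3 x4 x2 g2 g3 t1 (by rw [p1]; ring) h3 h4
  · exact gen x4 x2 x3 g3 g1 t2 (by rw [p1]; ring) h3 h4
  · exact gen x4 x3 x2 g3 g2 t1 (by rw [p1]; ring) h3 h4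
  · exact same _ h3 h4

end Orth

end Pool.Agent.Helper35.Pos
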