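import Pool.Agent.Helper35.Pos.Biq

/-!
# Symbols of biquadratic and of cyclic quartic elements
-/

namespace Pool.Agent.Helper35.Pos

open IntermediateField

variable {K : Type*} [Field K] {F : Type*} [Field F] [Algebra K F]

/-! ### Normal forms -/

lemma isAlg_of_pow {x : F} {n : ℕ} (hn : n ≠ 0) (h : InK K (x ^ n)) : IsAlgebraic K x := by
  obtain ⟨c, hc⟩ := h
  exact IsAlgebraic.of_pow (Nat.pos_of_ne_zero hn) (by rw [hc]; exact isAlgebraic_algebraMap c)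

lemma mem_adjoin_pair {α γ : F} (hα : InK K (α ^ 2)) (hγ : InK K (γ ^ 2)) {z : F}
    (hz : z ∈ adjoin K ({α, γ} : Set F)) :
    ∃ a b c d : F, InK K a ∧ InK K b ∧ InK K c ∧ InK K d ∧
      z = a + b * α + c * γ + d * (α * γ) := by
  have h1 : (adjoin K ({α, γ} : Set F)).toSubalgebra = Algebra.adjoin K {α, γ} := by
    apply adjoin_toSubalgebra_of_isAlgebraic
    intro x hx
    rcases hx with rfl | hx
    · exact isAlg_of_pow two_ne_zero hα
    · rw [Set.mem_singleton_iff] at hx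
      subst hx
      exact isAlg_of_pow two_ne_zero hγ
  have h2 : z ∈ Algebra.adjoin K ({α, γ} : Set F) := by rw [← h1]; exact hz
  have z0 : InK K (0 : F) := ⟨0, by rw [map_zero]⟩
  have z1 : InK K (1 : F) := ⟨1, by rw [map_one]⟩
  clear hz h1
  induction h2 using Algebra.adjoin_induction with
  | mem x hx =>
    rcases hx with rfl | hx
    · exact ⟨0, 1, 0, 0, z0, z1, z0, z0, by ring⟩
    · rw [Set.mem_singleton_iff] at hx
      subst hx
      exact ⟨0, 0, 1, 0, z0, z0, z1, z0, by ring⟩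
  | algebraMap r => exact ⟨algebraMap K F r, 0, 0, 0, .coe r, z0, z0, z0, by ring⟩
  | add x y _ _ hx hy =>
    obtain ⟨a, b, c, d, ha, hb, hc, hd, rfl⟩ := hx
    obtain ⟨a', b', c', d', ha', hb', hc', hd', rfl⟩ := hy
    exact ⟨a + a', b + b', c + c', d + d', ha.add ha', hb.add hb', hc.add hc', hd.add hd', by ring⟩
  | mul x y _ _ hx hy =>
    obtain ⟨a, b, c, d, ha, hb, hc, hd, rfl⟩ := hx
    obtain ⟨a', b', c', d', ha', hb', hc', hd', rfl⟩ := hy
    refine ⟨a * a' + b * b' * α ^ 2 + c * c' * γ ^ 2 + d * d' * (α ^ 2 * γ ^ 2),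
      a * b' + b * a' + (c * d' + d * c') * γ ^ 2, a * c' + c * a' + (b * d' + d * b') * α ^ 2,
      a * d' + d * a' + b * c' + c * b', ?_, ?_, ?_, ?_, by ring⟩
    · exact (((ha.mul ha').add ((hb.mul hb').mul hα)).add ((hc.mul hc').mul hγ)).add
        ((hd.mul hd').mul (hα.mul hγ))
    · exact ((ha.mul hb').add (hb.mul ha')).add (((hc.mul hd').add (hd.mul hc')).mul hγ)
    · exact ((ha.mul hc').add (hc.mul ha')).add (((hb.mul hd').add (hd.mul hb')).mul hα)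
    · exact (((ha.mul hd').add (hd.mul ha')).add (hb.mul hc')).add (hc.mul hb')

lemma mem_adjoin_quartic {θ : F} (hθ : InK K (θ ^ 4)) {z : F}
    (hz : z ∈ adjoin K ({θ} : Set F)) :
    ∃ a b c d : F, InK K a ∧ InK K b ∧ InK K c ∧ InK K d ∧
      z = (a + b * θ ^ 2) + (c + d * θ ^ 2) * θ := by
  have h1 : (adjoin K ({θ} : Set F)).toSubalgebra = Algebra.adjoin K {θ} := by
    apply adjoin_toSubalgebra_of_isAlgebraic
    intro x hx
    rw [Set.mem_singleton_iff] at hx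
    subst hx
    exact isAlg_of_pow four_ne_zero hθ
  have h2 : z ∈ Algebra.adjoin K ({θ} : Set F) := by rw [← h1]; exact hz
  have z0 : InK K (0 : F) := ⟨0, by rw [map_zero]⟩
  have z1 : InK K (1 : F) := ⟨1, by rw [map_one]⟩
  clear hz h1
  induction h2 using Algebra.adjoin_induction with
  | mem x hx =>
    rw [Set.mem_singleton_iff] at hx
    subst hx
    exact ⟨0, 0, 1, 0, z0, z0, z1, z0, by ring⟩
  | algebraMap r => exact ⟨algebraMap K F r, 0, 0, 0, .coe r, z0, z0, z0, by ring⟩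
  | add x y _ _ hx hy =>
    obtain ⟨a, b, c, d, ha, hb, hc, hd, rfl⟩ := hx
    obtain ⟨a', b', c', d', ha', hb', hc', hd', rfl⟩ := hy
    exact ⟨a + a', b + b', c + c', d + d', ha.add ha', hb.add hb', hc.add hc', hd.add hd', by ring⟩
  | mul x y _ _ hx hy =>
    obtain ⟨a, b, c, d, ha, hb, hc, hd, rfl⟩ := hx
    obtain ⟨a', b', c', d', ha', hb', hc', hd', rfl⟩ := hy
    -- basis `1, θ ^ 2 | θ, θ ^ 3`
    refine ⟨a * a' + (b * b' + (c * d' + d * c')) * θ ^ 4, a * b' + b * a' + c * c' +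
        d * d' * θ ^ 4,
      a * c' + c * a' + (b * d' + d * b') * θ ^ 4, a * d' + d * a' + b * c' + c * b',
      ?_, ?_, ?_, ?_, by ring⟩
    · exact (ha.mul ha').add ((((hb.mul hb').add ((hc.mul hd').add (hd.mul hc')))).mul hθ)
    · exact (((ha.mul hb').add (hb.mul ha')).add (hc.mul hc')).add ((hd.mul hd').mul hθ)
    · exact ((ha.mul hc').add (hc.mul ha')).add (((hb.mul hd').add (hd.mul hb')).mul hθ)
    · exact (((ha.mul hd').add (hd.mul ha')).add (hb.mul hc')).add (hc.mul hb')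

namespace RadClosed

variable (H : RadClosed K F)

include H

lemma orth_of {y : F} (hy : ∀ η k : F, IsRad K η → k ≠ 0 → 1 - η ^ 2 = k ^ 2 →
    Perp y (1 + η)) : Orth K (fun x => Perp y x) where
  mul _ _ _ _ hx hz := hx.mul hz
  inv _ _ hx := hx.inv
  sq _ _ := .sq_right
  rad _ _ hr := H.perp_rad hr
  gen η k hη hk h := hy η k hη hk h

/-- An element orthogonal to every `Orth` generator is orthogonal to biquadratic elements. -/
lemma orth_gen {η k : F} (hη : IsRad K η) (hk : k ≠ 0) (h : 1 - η ^ 2 = k ^ 2) :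
    Orth K (fun x => Perp (1 + η) x) := by
  refine H.orth_of fun η' k' hη' hk' h' => ?_
  exact H.wstar hη hη' (mul_ne_zero hk hk') (by rw [h, h']; ring)

/-- Biquadratic elements: sums `a + p + q + r` with `a, p ^ 2, q ^ 2, r ^ 2, p q r` in `K`. -/
def Biq (K : Type*) [Field K] {F : Type*} [Field F] [Algebra K F] (z : F) : Prop :=
  ∃ a p q r : F, InK K a ∧ InK K (p ^ 2) ∧ InK K (q ^ 2) ∧ InK K (r ^ 2) ∧
    InK K (p * q * r) ∧ z = a + p + q + r

lemma orth_biq {S : F → Prop} (hS : Orth K S) {z : F} (hz : z ≠ 0) (h : Biq K z) : S z := by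
  obtain ⟨a, p, q, r, ha, hp, hq, hr, hpqr, rfl⟩ := h
  exact hS.biq H ha hp hq hr hpqr hz

/-- **Biquadratic elements are pairwise orthogonal.** -/
theorem perp_biq {x y : F} (hx : x ≠ 0) (hy : y ≠ 0) (hx' : Biq K x) (hy' : Biq K y) :
    Perp x y := by
  refine H.orth_biq (H.orth_of fun η k hη hk h => ?_) hy hy'
  have hη0 : 1 + η ≠ 0 := by
    intro h0
    apply pow_ne_zero 2 hk
    rw [← h]; linear_combination (1 - η) * h0
  exact (H.orth_biq (H.orth_gen hη hk h) hx hx').symm H.two hη0 hx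

omit H in
lemma biq_of_mem_pair {α γ : F} (hα : InK K (α ^ 2)) (hγ : InK K (γ ^ 2)) {z : F}
    (hz : z ∈ adjoin K ({α, γ} : Set F)) : Biq K z := by
  obtain ⟨a, b, c, d, ha, hb, hc, hd, rfl⟩ := mem_adjoin_pair hα hγ hz
  refine ⟨a, b * α, c * γ, d * (α * γ), ha, ?_, ?_, ?_, ?_, rfl⟩
  · rw [mul_pow]; exact (hb.pow 2).mul hα
  · rw [mul_pow]; exact (hc.pow 2).mul hγ
  · rw [mul_pow, mul_pow]; exact (hd.pow 2).mul (hα.mul hγ)
  · have : b * α * (c * γ) * (d * (α * γ)) = b * c * d * (α ^ 2 * γ ^ 2) := by ring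
    rw [this]; exact ((hb.mul hc).mul hd).mul (hα.mul hγ)

/-- **Symbols of elements of `K(√a, √b)` and `K(√c, √d)`.** -/
theorem perp_of_mem_pair {α γ α' γ' : F} (hα : InK K (α ^ 2)) (hγ : InK K (γ ^ 2))
    (hα' : InK K (α' ^ 2)) (hγ' : InK K (γ' ^ 2)) {x y : F}
    (hx : x ∈ adjoin K ({α, γ} : Set F)) (hy : y ∈ adjoin K ({α', γ'} : Set F))
    (hx0 : x ≠ 0) (hy0 : y ≠ 0) : Perp x y :=
  H.perp_biq hx0 hy0 (biq_of_mem_pair hα hγ hx) (biq_of_mem_pair hα' hγ' hy)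

omit H in
lemma biq_quad {α g h : F} (hα : InK K (α ^ 2)) (hg : InK K g) (hh : InK K h) :
    Biq K (g + h * α) := by
  have z0 : InK K (0 : F) := ⟨0, by rw [map_zero]⟩
  refine ⟨g, h * α, 0, 0, hg, ?_, ?_, ?_, ?_, by ring⟩
  · rw [mul_pow]; exact (hh.pow 2).mul hα
  · rw [zero_pow two_ne_zero]; exact z0
  · rw [zero_pow two_ne_zero]; exact z0
  · rw [mul_zero]; exact z0

omit H in
lemma biq_of_mem_single {α : F} (hα : InK K (α ^ 2)) {z : F}
    (hz : z ∈ adjoin K ({α} : Set F)) : ∃ g h : F, InK K g ∧ InK K h ∧ z = g + h * α := by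
  have h1 : z ∈ adjoin K ({α, 0} : Set F) :=
    adjoin.mono K _ _ (by intro x hx; exact Or.inl hx) hz
  have z0 : InK K ((0 : F) ^ 2) := ⟨0, by rw [map_zero, zero_pow two_ne_zero]⟩
  obtain ⟨a, b, c, d, ha, hb, hc, hd, rfl⟩ := mem_adjoin_pair hα z0 h1
  exact ⟨a, b, ha, hb, by ring⟩

/-! ### Cyclic quartic extensions -/

omit H in
/-- `{(1 + p) (1 + q), p ^ 2 - q ^ 2} = 0` if `1 - q ^ 2` is a nonzero square. -/
lemma perp_diff {p q k : F} (hk : k ≠ 0) (h : 1 - q ^ 2 = k ^ 2) :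
    Perp ((1 + p) * (1 + q)) (p ^ 2 - q ^ 2) := by
  have hq : 1 + q ≠ 0 := by
    intro h0
    apply pow_ne_zero 2 hk
    rw [← h]; linear_combination (1 - q) * h0
  have h1 : p ^ 2 - q ^ 2 = (1 ^ 2 - (1 + p) * (1 + q) * (1 / (1 + q)) ^ 2) *
      (k ^ 2 - (1 + p) * (1 + q) * 1 ^ 2) := by
    rw [← h]; field_simp; ring
  rw [h1]
  exact Perp.mul ⟨1, 1 / (1 + q), rfl⟩ ⟨k, 1, rfl⟩

/-- `1 + p` is orthogonal to `p ^ 2 - B` for `B` in `K` if `p ^ 2` is quadratic over `K`. -/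
lemma perp_one_add_sub {α p B : F} (hα : InK K (α ^ 2)) (hB : InK K B)
    (hp : ∃ g h : F, InK K g ∧ InK K h ∧ p ^ 2 = g + h * α) (hp1 : 1 + p ≠ 0)
    (h0 : p ^ 2 - B ≠ 0) : Perp (1 + p) (p ^ 2 - B) := by
  obtain ⟨q, hq⟩ := H.exists_sq B hB.isRad
  by_cases hB1 : B = 1
  · subst hB1
    obtain ⟨s, hs⟩ := H.exists_sq (-2) IsRad.two.neg
    obtain ⟨i, hi⟩ := H.exists_i
    have hi' : (algebraMap K F i) ^ 2 = -1 := by rw [← map_pow, hi, map_neg, map_one]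
    have h1 : p ^ 2 - 1 = (1 + p) * (p - 1) := by ring
    rw [h1]
    refine (H.perp_self _).mul ⟨s, algebraMap K F i, ?_⟩
    rw [hs, hi']; ring
  · have hkr : InK K (1 - B) := InK.sub ⟨1, by rw [map_one]⟩ hB
    obtain ⟨k, hk⟩ := H.exists_sq _ hkr.isRad
    have hk0 : k ≠ 0 := by
      rintro rfl
      rw [zero_pow two_ne_zero] at hk
      exact hB1 (by linear_combination hk)
    have h1 : 1 - q ^ 2 = k ^ 2 := by rw [hq, hk]
    have hq1 : 1 + q ≠ 0 := by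
      intro h0
      apply pow_ne_zero 2 hk0
      rw [← h1]; linear_combination (1 - q) * h0
    have h2 : Perp ((1 + p) * (1 + q)) (p ^ 2 - B) := by
      have := perp_diff (p := p) hk0 h1
      rwa [hq] at this
    obtain ⟨g, h, hg, hh, hgh⟩ := hp
    have hb1 : Biq K (p ^ 2 - B) := by
      have h3 : p ^ 2 - B = (g - B) + h * α := by rw [hgh]; ring
      rw [h3]; exact biq_quad hα (hg.sub hB) hh
    have hb2 : Biq K (1 + q) := by
      have h3 : 1 + q = 1 + 1 * q := by ring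
      rw [h3]
      exact biq_quad (by rw [hq]; exact hB) ⟨1, by rw [map_one]⟩ ⟨1, by rw [map_one]⟩
    have h3 : Perp (p ^ 2 - B) (1 + q) := H.perp_biq h0 hq1 hb1 hb2
    have h4 := h2.symm H.two (mul_ne_zero hp1 hq1) h0
    rw [mul_comm] at h4
    exact (Perp.of_mul hq1 h3 h4).symm H.two h0 hp1

/-- `1 + c θ` is orthogonal to `K(θ ^ 2)` for `c` in `K(θ ^ 2)`. -/
lemma perp_one_add_mul {θ c z : F} (hθ : InK K (θ ^ 4)) (hc : c ∈ adjoin K ({θ ^ 2} : Set F))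
    (hz : z ∈ adjoin K ({θ ^ 2} : Set F)) (hz0 : z ≠ 0) (h0 : 1 + c * θ ≠ 0) :
    Perp (1 + c * θ) z := by
  have hα : InK K ((θ ^ 2) ^ 2) := by rw [← pow_mul]; exact hθ
  obtain ⟨g, h, hg, hh, hzgh⟩ := biq_of_mem_single hα hz
  obtain ⟨c₀, c₁, hc₀, hc₁, hcc⟩ := biq_of_mem_single hα hc
  have hzb : Biq K z := by rw [hzgh]; exact biq_quad hα hg hh
  have e1 : (c * θ) ^ 2 = 2 * c₀ * c₁ * θ ^ 4 + (c₀ ^ 2 + c₁ ^ 2 * θ ^ 4) * θ ^ 2 := by
    rw [hcc]; ring
  have hμK : InK K (c₀ ^ 2 + c₁ ^ 2 * θ ^ 4) := (hc₀.pow 2).add ((hc₁.pow 2).mul hθ)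
  have hlK : InK K (2 * c₀ * c₁ * θ ^ 4) := ((InK.two.mul hc₀).mul hc₁).mul hθ
  by_cases hμ : c₀ ^ 2 + c₁ ^ 2 * θ ^ 4 = 0
  · -- `1 + c θ` is quadratic over `K`
    have h1 : InK K ((c * θ) ^ 2) := by
      rw [e1, hμ, zero_mul, add_zero]; exact hlK
    refine H.perp_biq h0 hz0 ?_ hzb
    have h3 : 1 + c * θ = 1 + 1 * (c * θ) := by ring
    rw [h3]
    exact biq_quad h1 ⟨1, by rw [map_one]⟩ ⟨1, by rw [map_one]⟩
  · by_cases hh0 : h = 0
    · rw [hzgh, hh0, zero_mul, add_zero]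
      exact H.perp_rad hg.isRad
    · -- `z = (h / μ) ((c θ) ^ 2 - B)`
      set μ := c₀ ^ 2 + c₁ ^ 2 * θ ^ 4 with hμdef
      set B := 2 * c₀ * c₁ * θ ^ 4 - g * μ / h with hB
      have hBK : InK K B := hlK.sub ((hg.mul hμK).div hh)
      have h1 : z = (h / μ) * ((c * θ) ^ 2 - B) := by
        rw [hzgh, e1, hB]; field_simp; ring
      have h2 : (c * θ) ^ 2 - B ≠ 0 := by
        intro h3; rw [h3, mul_zero] at h1; exact hz0 h1
      rw [h1]
      exact (H.perp_rad (hh.div hμK).isRad).mul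
        (H.perp_one_add_sub hα hBK ⟨_, _, hlK, hμK, e1⟩ h0 h2)

/-- `K(θ)` is orthogonal to `K(θ ^ 2)`. -/
lemma perp_quartic_quad {θ g h z : F} (hθ : InK K (θ ^ 4))
    (hg : g ∈ adjoin K ({θ ^ 2} : Set F)) (hh : h ∈ adjoin K ({θ ^ 2} : Set F))
    (hz : z ∈ adjoin K ({θ ^ 2} : Set F)) (hz0 : z ≠ 0) (h0 : g + h * θ ≠ 0) :
    Perp (g + h * θ) z := by
  have hα : InK K ((θ ^ 2) ^ 2) := by rw [← pow_mul]; exact hθ
  have hb : ∀ w ∈ adjoin K ({θ ^ 2} : Set F), Biq K w := by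
    intro w hw
    obtain ⟨g, h, hg, hh, rfl⟩ := biq_of_mem_single hα hw
    exact biq_quad hα hg hh
  by_cases hg0 : g = 0
  · subst hg0
    rw [zero_add] at h0 ⊢
    have hh0 : h ≠ 0 := left_ne_zero_of_mul h0
    have hθr : IsRad K θ := IsRad.of_sq (IsRad.of_sq (by rw [← pow_mul]; exact hθ.isRad))
    exact ((H.perp_biq hz0 hh0 (hb z hz) (hb h hh)).mul (H.perp_rad hθr)).symm H.two hz0 h0
  · have h1 : g + h * θ = g * (1 + (h / g) * θ) := by field_simp
    have h2 : 1 + (h / g) * θ ≠ 0 := by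
      intro h3; rw [h3, mul_zero] at h1; exact h0 h1
    have h3 := H.perp_one_add_mul hθ (div_mem hh hg) hz hz0 h2
    have h4 := H.perp_biq hz0 hg0 (hb z hz) (hb g hg)
    rw [h1] at h0 ⊢
    exact (h4.mul (h3.symm H.two h2 hz0)).symm H.two hz0 h0

/-- **Symbols of elements of `K(θ)`, `θ ^ 4 ∈ K`.** -/
theorem perp_of_mem_quartic {θ x y : F} (hθ : InK K (θ ^ 4))
    (hx : x ∈ adjoin K ({θ} : Set F)) (hy : y ∈ adjoin K ({θ} : Set F))
    (hx0 : x ≠ 0) (hy0 : y ≠ 0) : Perp x y := by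
  have hN : ∀ w ∈ adjoin K ({θ} : Set F), ∃ g ∈ adjoin K ({θ ^ 2} : Set F),
      ∃ h ∈ adjoin K ({θ ^ 2} : Set F), w = g + h * θ := by
    intro w hw
    obtain ⟨a, b, c, d, ⟨a', rfl⟩, ⟨b', rfl⟩, ⟨c', rfl⟩, ⟨d', rfl⟩, rfl⟩ :=
      mem_adjoin_quartic hθ hw
    have h1 : θ ^ 2 ∈ adjoin K ({θ ^ 2} : Set F) := mem_adjoin_simple_self K _
    exact ⟨_, add_mem (IntermediateField.algebraMap_mem _ a') (mul_mem (IntermediateField.algebraMap_mem _ b') h1), _,
      add_mem (IntermediateField.algebraMap_mem _ c') (mul_mem (IntermediateField.algebraMap_mem _ d') h1), rfl⟩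
  obtain ⟨g, hg, h, hh, hxe⟩ := hN x hx
  obtain ⟨g', hg', h', hh', hye⟩ := hN y hy
  have h2 := H.two
  -- orthogonality to `K(θ ^ 2)`
  have E : ∀ w ∈ adjoin K ({θ} : Set F), w ≠ 0 → ∀ z ∈ adjoin K ({θ ^ 2} : Set F), z ≠ 0 →
      Perp w z := by
    intro w hw hw0 z hz hz0
    obtain ⟨g, hg, h, hh, rfl⟩ := hN w hw
    exact H.perp_quartic_quad hθ hg hh hz hz0 hw0
  by_cases hh0 : h = 0
  · have h1 : x = g := by rw [hxe, hh0]; ring
    rw [h1] at hx0 ⊢
    exact (E y hy hy0 g hg hx0).symm h2 hy0 hx0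
  by_cases hh0' : h' = 0
  · have h1 : y = g' := by rw [hye, hh0']; ring
    rw [h1] at hy0 ⊢
    exact E x hx hx0 g' hg' hy0
  have rel : h' * x - h * y = h' * g - h * g' := by rw [hxe, hye]; ring
  by_cases hc : h' * g - h * g' = 0
  · have h1 : y = x * (h' / h) := by
      field_simp
      linear_combination -rel - hc
    rw [h1]
    exact (H.perp_self x).mul (E x hx hx0 _ (div_mem hh' hh) (div_ne_zero hh0' hh0))
  · set c := h' * g - h * g' with hcdef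
    have hcM : c ∈ adjoin K ({θ ^ 2} : Set F) := sub_mem (mul_mem hh' hg) (mul_mem hh hg')
    have hUM : h' / c ∈ adjoin K ({θ ^ 2} : Set F) := div_mem hh' hcM
    have hVM : -h / c ∈ adjoin K ({θ ^ 2} : Set F) := div_mem (neg_mem hh) hcM
    have hU0 : h' / c ≠ 0 := div_ne_zero hh0' hc
    have hV0 : -h / c ≠ 0 := div_ne_zero (neg_ne_zero.mpr hh0) hc
    have hUx0 : h' / c * x ≠ 0 := mul_ne_zero hU0 hx0
    have hle : adjoin K ({θ ^ 2} : Set F) ≤ adjoin K ({θ} : Set F) := by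
      rw [adjoin_le_iff]
      intro w hw
      rw [Set.mem_singleton_iff] at hw
      subst hw
      exact pow_mem (mem_adjoin_simple_self K θ) 2
    have hUx : h' / c * x ∈ adjoin K ({θ} : Set F) := mul_mem (hle hUM) hx
    have h1 : Perp (h' / c * x) (-h / c * y) := by
      refine ⟨1, 1, ?_⟩
      field_simp
      linear_combination rel
    have h3 : Perp (h' / c * x) y := Perp.of_mul hV0 (E _ hUx hUx0 _ hVM hV0) h1
    have h4 : Perp y (h' / c * x) := h3.symm h2 hUx0 hy0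
    exact (Perp.of_mul hU0 (E y hy hy0 _ hUM hU0) h4).symm h2 hy0 hx0

end RadClosed

end Pool.Agent.Helper35.Pos
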