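import Mathlib

/-!
# Split quaternion algebras: elementary calculus and the pentagon lemma

For a field `F`, `Perp x y` says that `y = s ^ 2 - x * t ^ 2` for some `s, t` in `F`; for nonzero
`x, y` this means that the quaternion algebra `(x, y)` over `F` splits.
-/

namespace Pool.Agent.Helper35.Pos

variable {F : Type*} [Field F]

/-- `y` is represented by the norm form of the Kummer algebra `F[√x]`. -/
def Perp (x y : F) : Prop := ∃ s t : F, y = s ^ 2 - x * t ^ 2

lemma Perp.symm (h2 : (2 : F) ≠ 0) {x y : F} (hx : x ≠ 0) (hy : y ≠ 0) (h : Perp x y) :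
    Perp y x := by
  obtain ⟨s, t, h⟩ := h
  by_cases ht : t = 0
  · subst ht
    have hs : s ≠ 0 := by
      rintro rfl
      apply hy
      rw [h]; ring
    refine ⟨(x + 1) / 2, (1 - x) / (2 * s), ?_⟩
    rw [h]
    field_simp
    ring
  · refine ⟨s / t, 1 / t, ?_⟩
    rw [h]
    field_simp
    ring

lemma Perp.sq_right {x z : F} : Perp x (z ^ 2) := ⟨z, 0, by ring⟩

lemma Perp.mul {x y z : F} (hy : Perp x y) (hz : Perp x z) : Perp x (y * z) := by
  obtain ⟨s, t, rfl⟩ := hy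
  obtain ⟨s', t', rfl⟩ := hz
  exact ⟨s * s' + x * t * t', s * t' + s' * t, by ring⟩

lemma Perp.inv {x y : F} (hy : Perp x y) : Perp x y⁻¹ := by
  by_cases h0 : y = 0
  · subst h0; rw [inv_zero]; exact ⟨0, 0, by ring⟩
  · have h1 : y⁻¹ = y * (y⁻¹) ^ 2 := by field_simp
    rw [h1]
    exact hy.mul .sq_right

lemma Perp.div {x y z : F} (hy : Perp x y) (hz : Perp x z) : Perp x (y / z) := by
  rw [div_eq_mul_inv]; exact hy.mul hz.inv

/-- Cancelling a factor. -/
lemma Perp.of_mul {x y z : F} (hy : y ≠ 0) (hyx : Perp x y) (h : Perp x (y * z)) : Perp x z := by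
  have h1 : z = (y * z) / y := by field_simp
  rw [h1]
  exact h.div hyx

lemma Perp.self {i : F} (hi : i ^ 2 = -1) (x : F) : Perp x x := ⟨0, i, by rw [hi]; ring⟩

/-- The Steinberg relation. -/
lemma Perp.of_add {x y r s t : F} (hs : s ≠ 0) (h : r ^ 2 * x + s ^ 2 * y = t ^ 2) :
    Perp x y := by
  refine ⟨t / s, r / s, ?_⟩
  field_simp
  linear_combination h

/-! ### The ternary form `⟨α, β, -αβ⟩` -/

section Ternary

variable (α β : F)

/-- The bilinear form of `⟨α, β, -αβ⟩`. -/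
def bil (v w : F × F × F) : F := α * v.1 * w.1 + β * v.2.1 * w.2.1 - α * β * v.2.2 * w.2.2

lemma bil_comm (v w : F × F × F) : bil α β v w = bil α β w v := by
  simp only [bil]; ring

lemma bil_sub_smul_left (v w z : F × F × F) (c : F) :
    bil α β (v - c • w) z = bil α β v z - c * bil α β w z := by
  simp only [bil, Prod.fst_sub, Prod.snd_sub, Prod.smul_fst, Prod.smul_snd, smul_eq_mul]; ring

lemma bil_sub_smul_self (v w : F × F × F) (c : F) :
    bil α β (v - c • w) (v - c • w) =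
      bil α β v v - 2 * c * bil α β v w + c ^ 2 * bil α β w w := by
  simp only [bil, Prod.fst_sub, Prod.snd_sub, Prod.smul_fst, Prod.smul_snd, smul_eq_mul]; ring

/-- Two vectors orthogonal to the same vector `u`. -/
lemma plane (u v w : F × F × F) (hu : bil α β u u ≠ 0) (hv : bil α β v u = 0)
    (hw : bil α β w u = 0) : Perp (bil α β u u) (bil α β v v * bil α β w w) := by
  obtain ⟨u1, u2, u3⟩ := u
  obtain ⟨v1, v2, v3⟩ := v
  obtain ⟨w1, w2, w3⟩ := w
  set U := bil α β (u1, u2, u3) (u1, u2, u3) with hU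
  set D := α * β * (u1 * (v2 * w3 - v3 * w2) - u2 * (v1 * w3 - v3 * w1) +
    u3 * (v1 * w2 - v2 * w1)) with hD
  have key : U * (bil α β (v1, v2, v3) (v1, v2, v3) * bil α β (w1, w2, w3) (w1, w2, w3) -
      bil α β (v1, v2, v3) (w1, w2, w3) ^ 2) = - D ^ 2 := by
    have h1 : U * (bil α β (v1, v2, v3) (v1, v2, v3) * bil α β (w1, w2, w3) (w1, w2, w3) -
        bil α β (v1, v2, v3) (w1, w2, w3) ^ 2)
        + 2 * bil α β (v1, v2, v3) (w1, w2, w3) * bil α β (w1, w2, w3) (u1, u2, u3) *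
          bil α β (v1, v2, v3) (u1, u2, u3)
        - bil α β (v1, v2, v3) (v1, v2, v3) * bil α β (w1, w2, w3) (u1, u2, u3) ^ 2
        - bil α β (w1, w2, w3) (w1, w2, w3) * bil α β (v1, v2, v3) (u1, u2, u3) ^ 2 = - D ^ 2 := by
      rw [hU, hD]
      simp only [bil]
      ring
    rw [hv, hw] at h1
    linear_combination h1
  refine ⟨bil α β (v1, v2, v3) (w1, w2, w3), D / U, ?_⟩
  field_simp
  linear_combination key

/-- If `v` and `v'` have the same nonzero length and `w` is orthogonal to `v`, then there is `w'`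
orthogonal to `v'` of the same length as `w`. -/
lemma reflect (h2 : (2 : F) ≠ 0) (v v' w : F × F × F) (s : F) (hs : s ≠ 0)
    (hv : bil α β v v = s) (hv' : bil α β v' v' = s) (hw : bil α β w v = 0) :
    ∃ w', bil α β w' v' = 0 ∧ bil α β w' w' = bil α β w w := by
  -- a sign `ε` such that `y = v - ε v'` is anisotropic
  obtain ⟨ε, hε, hy⟩ : ∃ ε : F, ε ^ 2 = 1 ∧ s - ε * bil α β v v' ≠ 0 := by
    by_cases h : s - bil α β v v' = 0
    · refine ⟨-1, by ring, fun h' => ?_⟩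
      apply hs
      have : 2 * s = 0 := by linear_combination h + h'
      exact (mul_eq_zero.mp this).resolve_left h2
    · exact ⟨1, by ring, by simpa using h⟩
  set y := v - ε • v' with hydef
  have hyy : bil α β y y = 2 * (s - ε * bil α β v v') := by
    rw [hydef, bil_sub_smul_self, hv, hv', hε]; ring
  have hyy0 : bil α β y y ≠ 0 := by rw [hyy]; exact mul_ne_zero h2 hy
  have hyv' : bil α β y v' = bil α β v v' - ε * s := by
    rw [hydef, bil_sub_smul_left, hv']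
  have hwy : bil α β w y = - ε * bil α β w v' := by
    rw [bil_comm, hydef, bil_sub_smul_left, bil_comm α β v w, hw, bil_comm α β v' w]; ring
  refine ⟨w - (2 * bil α β w y / bil α β y y) • y, ?_, ?_⟩
  · rw [bil_sub_smul_left, hyv', hwy, hyy]
    field_simp
    linear_combination (-(s * bil α β w v')) * hε
  · rw [bil_sub_smul_self]
    field_simp
    ring

end Ternary

/-- **Pentagon lemma.** -/
theorem pentagon (h2 : (2 : F) ≠ 0) {s₁ s₂ s₃ s₄ s₅ : F} (h₁ : s₁ ≠ 0) (h₃ : s₃ ≠ 0)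
    (h₄ : s₄ ≠ 0) (h₂₁₃ : Perp s₂ (s₁ * s₃)) (h₃₂₄ : Perp s₃ (s₂ * s₄))
    (h₄₃₅ : Perp s₄ (s₃ * s₅)) (h₅₄₁ : Perp s₅ (s₄ * s₁)) : Perp s₁ (s₅ * s₂) := by
  obtain ⟨p, q, hpq⟩ := h₂₁₃
  obtain ⟨a, b, hab⟩ := h₃₂₄
  obtain ⟨c, d, hcd⟩ := h₄₃₅
  obtain ⟨p', q', hpq'⟩ := h₅₄₁
  have e5 : s₅ = (c ^ 2 - s₄ * d ^ 2) / s₃ := by field_simp; linear_combination hcd
  have e2 : s₂ = (a ^ 2 - s₃ * b ^ 2) / s₄ := by field_simp; linear_combination hab
  have e1 : s₁ = (p ^ 2 - s₂ * q ^ 2) / s₃ := by field_simp; linear_combination hpq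
  have e1' : s₁ = (p' ^ 2 - s₅ * q' ^ 2) / s₄ := by field_simp; linear_combination hpq'
  set v₂ : F × F × F := (0, a / s₄, b / s₄) with hv₂
  set v₅ : F × F × F := (c / s₃, 0, d / s₃) with hv₅
  set v₁ : F × F × F := (p / s₃, q * (b / s₄), q * (a / s₄) / s₃) with hv₁
  set v₁' : F × F × F := (q' * (d / s₃), p' / s₄, q' * (c / s₃) / s₄) with hv₁'
  have q2 : bil s₃ s₄ v₂ v₂ = s₂ := by
    rw [e2, hv₂]; simp only [bil]; field_simp; ring
  have q5 : bil s₃ s₄ v₅ v₅ = s₅ := by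
    rw [e5, hv₅]; simp only [bil]; field_simp; ring
  have q1 : bil s₃ s₄ v₁ v₁ = s₁ := by
    rw [e1, e2, hv₁]; simp only [bil]; field_simp; ring
  have q1' : bil s₃ s₄ v₁' v₁' = s₁ := by
    rw [e1', e5, hv₁']; simp only [bil]; field_simp; ring
  have b21 : bil s₃ s₄ v₂ v₁ = 0 := by
    rw [hv₁, hv₂]; simp only [bil]; field_simp; ring
  have b51 : bil s₃ s₄ v₅ v₁' = 0 := by
    rw [hv₁', hv₅]; simp only [bil]; field_simp; ring
  obtain ⟨w, hw1, hw2⟩ := reflect s₃ s₄ h2 v₁ v₁' v₂ s₁ h₁ q1 q1' b21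
  have := plane s₃ s₄ v₁' v₅ w (by rw [q1']; exact h₁) b51 hw1
  rwa [q1', q5, hw2, q2] at this

end Pool.Agent.Helper35.Pos
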