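import Pool.Agent.Helper35.Pos.Main
import Pool.Agent.Helper26.CyclicAlgebra
import Pool.Agent.Helper26.RadClosure

/-!
# The field `2^∞√K` and splitting of cyclic algebras of degree two
-/

namespace Pool.Agent.Helper35.Pos

open Pool.Agent.Helper26 Polynomial

universe u

/-- `Perp a b` implies that the quaternion algebra `(a, b)` is split. -/
theorem isSplit_of_perp {F : Type u} [Field F] (h2 : (2 : F) ≠ 0) {a b : F} (ha : a ≠ 0)
    (hb : b ≠ 0) (h : Perp a b) : IsSplit 2 (-1 : F) a b := by
  obtain ⟨s, t, hst⟩ := h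
  have hζ : IsPrimitiveRoot (-1 : F) 2 := by
    refine IsPrimitiveRoot.mk_of_lt _ two_pos (by ring) ?_
    intro l hl1 hl2
    have hl : l = 1 := by omega
    subst hl
    rw [pow_one]
    intro h3
    apply h2
    linear_combination -h3
  refine isSplit_of_kumNorm two_pos hζ (by exact_mod_cast h2) ha hb
    (algebraMap F (Kum 2 a) s + algebraMap F (Kum 2 a) t *
      AdjoinRoot.root (X ^ 2 - C a : F[X])) ?_
  have hr : (AdjoinRoot.root (X ^ 2 - C a : F[X])) ^ 2 = algebraMap F (Kum 2 a) a :=
    kum_root_pow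
  rw [kumNorm, Finset.prod_range_succ, Finset.prod_range_one, pow_zero, pow_one, AlgHom.one_apply,
    map_add, map_mul, AlgHom.commutes, AlgHom.commutes, kumSigma_root, hst, Algebra.smul_def,
    map_sub, map_mul, map_pow, map_pow, ← hr]
  have h1 : (-1 : F)⁻¹ = -1 := by norm_num
  rw [h1, map_neg, map_one]
  ring

/-- The field `2^∞√K` satisfies the assumptions `RadClosed`. -/
theorem radClosed (K : Type u) [Field K] (h2 : (2 : K) ≠ 0) (hi : ∃ i : K, i ^ 2 = -1) :
    RadClosed K (radClosure 2 K) where
  two := by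
    intro h
    apply h2
    apply (algebraMap K (radClosure 2 K)).injective
    rw [map_ofNat, map_zero]; exact h
  exists_i := hi
  exists_sq r hr := by
    have h1 : (r : AlgebraicClosure K) ∈ radSet 2 K := by
      obtain ⟨n, c, hc⟩ := hr
      exact ⟨n, c, congrArg Subtype.val hc⟩
    obtain ⟨e, he, her⟩ := exists_root_mem_radSet 2 K two_pos h1
    exact ⟨⟨e, radSet_subset 2 K he⟩, Subtype.ext her⟩

end Pool.Agent.Helper35.Pos
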