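import Pool.Agent.Helper35.Pos.Perp

/-!
# Radicals, and the symbols `{1 + A, 1 + B}` for radicals `A`, `B`
-/

namespace Pool.Agent.Helper35.Pos

variable (K : Type*) [Field K] {F : Type*} [Field F] [Algebra K F]

/-- `r` is a radical over `K`: some `2 ^ n`-th power of `r` lies in `K`. -/
def IsRad (r : F) : Prop := ∃ n : ℕ, ∃ c : K, r ^ 2 ^ n = algebraMap K F c

variable {K}

lemma IsRad.mul {r s : F} (hr : IsRad K r) (hs : IsRad K s) : IsRad K (r * s) := by
  obtain ⟨n, c, hc⟩ := hr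
  obtain ⟨m, d, hd⟩ := hs
  refine ⟨n + m, c ^ 2 ^ m * d ^ 2 ^ n, ?_⟩
  rw [mul_pow, pow_add, pow_mul, hc, mul_comm (2 ^ n), pow_mul, hd, map_mul, map_pow, map_pow]

lemma IsRad.of_sq {r : F} (hr : IsRad K (r ^ 2)) : IsRad K r := by
  obtain ⟨n, c, hc⟩ := hr
  refine ⟨n + 1, c, ?_⟩
  rw [pow_succ', pow_mul, hc]

lemma IsRad.coe (c : K) : IsRad K (algebraMap K F c) := ⟨0, c, by simp⟩

lemma IsRad.of_sq_eq {r : F} {c : K} (h : r ^ 2 = algebraMap K F c) : IsRad K r :=
  IsRad.of_sq (by rw [h]; exact .coe c)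

lemma IsRad.inv {r : F} (hr : IsRad K r) : IsRad K r⁻¹ := by
  obtain ⟨n, c, hc⟩ := hr
  exact ⟨n, c⁻¹, by rw [inv_pow, hc, map_inv₀]⟩

lemma IsRad.div {r s : F} (hr : IsRad K r) (hs : IsRad K s) : IsRad K (r / s) := by
  rw [div_eq_mul_inv]; exact hr.mul hs.inv

lemma IsRad.two : IsRad K (2 : F) := by
  have := IsRad.coe (K := K) (F := F) 2
  rwa [map_ofNat] at this

lemma IsRad.one : IsRad K (1 : F) := by
  have := IsRad.coe (K := K) (F := F) 1
  rwa [map_one] at this

lemma IsRad.zero : IsRad K (0 : F) := by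
  have := IsRad.coe (K := K) (F := F) 0
  rwa [map_zero] at this

lemma IsRad.neg {r : F} (hr : IsRad K r) : IsRad K (-r) := by
  have := (IsRad.coe (K := K) (F := F) (-1)).mul hr
  rwa [map_neg, map_one, neg_one_mul] at this

/-- The assumptions on the pair `K ⊆ F`: characteristic different from `2`, `√-1 ∈ K` and every
radical over `K` is a square in `F`. -/
structure RadClosed (K : Type*) [Field K] (F : Type*) [Field F] [Algebra K F] : Prop where
  two : (2 : F) ≠ 0
  exists_i : ∃ i : K, i ^ 2 = -1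
  exists_sq : ∀ r : F, IsRad K r → ∃ s : F, s ^ 2 = r

namespace RadClosed

variable (H : RadClosed K F)

include H

lemma perp_self (x : F) : Perp x x := by
  obtain ⟨i, hi⟩ := H.exists_i
  refine Perp.self (i := algebraMap K F i) ?_ x
  rw [← map_pow, hi, map_neg, map_one]

lemma perp_rad {x r : F} (hr : IsRad K r) : Perp x r := by
  obtain ⟨s, rfl⟩ := H.exists_sq r hr
  exact .sq_right

/-- **Symbols of radicals.**  If `(1 - A ^ 2) (1 - B ^ 2)` is a nonzero square then
`{1 + A, 1 + B} = 0`. -/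
theorem wstar {A B k : F} (hA : IsRad K A) (hB : IsRad K B) (hk : k ≠ 0)
    (h : (1 - A ^ 2) * (1 - B ^ 2) = k ^ 2) : Perp (1 + A) (1 + B) := by
  have h2 := H.two
  have hA0 : 1 - A ^ 2 ≠ 0 := by
    intro h0; rw [h0, zero_mul] at h
    exact hk (pow_eq_zero_iff (two_ne_zero) |>.mp h.symm)
  have hB0 : 1 - B ^ 2 ≠ 0 := by
    intro h0; rw [h0, mul_zero] at h
    exact hk (pow_eq_zero_iff (two_ne_zero) |>.mp h.symm)
  have hu : 1 + A ≠ 0 := by
    intro h0; apply hA0; linear_combination (1 - A) * h0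
  have hv : 1 + B ≠ 0 := by
    intro h0; apply hB0; linear_combination (1 - B) * h0
  obtain ⟨q, hq, hq0, hp⟩ : ∃ q : F, q ^ 2 * (1 - A ^ 2) = 1 - B ^ 2 ∧ q ≠ 0 ∧ 1 + q ≠ 0 := by
    have h1 : (k / (1 - A ^ 2)) ^ 2 * (1 - A ^ 2) = 1 - B ^ 2 := by
      field_simp
      linear_combination - h
    have h3 : k / (1 - A ^ 2) ≠ 0 := div_ne_zero hk hA0
    by_cases h4 : 1 + k / (1 - A ^ 2) = 0
    · refine ⟨-(k / (1 - A ^ 2)), by rw [neg_sq]; exact h1, neg_ne_zero.mpr h3, fun h5 => ?_⟩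
      exact h2 (by linear_combination h4 + h5)
    · exact ⟨_, h1, h3, h4⟩
  set e := 1 + B + q * (1 + A) with he
  have e1 : e * ((1 + q) + q * A - B) = 2 * ((1 + q) * q * (1 + A)) := by
    rw [he]; linear_combination (-1 : F) * hq
  have he0 : e ≠ 0 := by
    intro h0
    rw [h0, zero_mul] at e1
    exact mul_ne_zero h2 (mul_ne_zero (mul_ne_zero hp hq0) hu) e1.symm
  have hRB : ∃ b, b ^ 2 = 2 * B := H.exists_sq _ (IsRad.two.mul hB)
  have hRA : ∃ a, a ^ 2 = 2 * A := H.exists_sq _ (IsRad.two.mul hA)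
  obtain ⟨b, hb⟩ := hRB
  obtain ⟨a, ha⟩ := hRA
  have p2 : ∀ x : F, Perp x (2 : F) := fun x => H.perp_rad IsRad.two
  -- the four hypotheses of the pentagon lemma
  have c1 : Perp (e * q) ((1 + B) * (1 + q)) := by
    refine Perp.of_mul h2 (p2 _) ⟨e, a, ?_⟩
    rw [ha, he]
    linear_combination (-1 : F) * hq
  have c2 : Perp (1 + q) ((e * q) * e) := by
    have h5 : Perp (1 + q) q := by
      obtain ⟨i, hi⟩ := H.exists_i
      have hi' : (algebraMap K F i) ^ 2 = -1 := by rw [← map_pow, hi, map_neg, map_one]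
      exact ⟨algebraMap K F i, algebraMap K F i, by rw [hi']; ring⟩
    have h6 : (e * q) * e = e ^ 2 * q := by ring
    rw [h6]
    exact Perp.sq_right.mul h5
  have c3 : Perp e ((1 + q) * (e * q * (1 + A))) := by
    have h5 : Perp e ((1 + q) * q * (1 + A)) := by
      refine Perp.of_mul h2 (p2 _) ⟨e, b, ?_⟩
      rw [hb, ← e1, he]
      ring
    have h6 : (1 + q) * (e * q * (1 + A)) = e * ((1 + q) * q * (1 + A)) := by ring
    rw [h6]
    exact (H.perp_self e).mul h5
  have c4 : Perp (e * q * (1 + A)) (e * (1 + B)) := ⟨e, 1, by rw [he]; ring⟩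
  have h7 := pentagon h2 hv hp he0 c1 c2 c3 c4
  have h8 : Perp (1 + B) (1 + A) := by
    have h9 : 1 + A = ((e * q * (1 + A)) * (e * q)) / (e * q) ^ 2 := by
      field_simp
    rw [h9]
    exact h7.div .sq_right
  exact h8.symm h2 hv hu

end RadClosed

/-- Closure properties of the set of elements orthogonal to a given one. -/
structure Orth (K : Type*) [Field K] {F : Type*} [Field F] [Algebra K F] (S : F → Prop) :
    Prop where
  mul : ∀ x y, x ≠ 0 → y ≠ 0 → S x → S y → S (x * y)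
  inv : ∀ x, x ≠ 0 → S x → S x⁻¹
  sq : ∀ x, x ≠ 0 → S (x ^ 2)
  rad : ∀ r, r ≠ 0 → IsRad K r → S r
  gen : ∀ η k : F, IsRad K η → k ≠ 0 → 1 - η ^ 2 = k ^ 2 → S (1 + η)

namespace Orth

variable {S : F → Prop} (hS : Orth K S)

include hS

lemma div {x y : F} (hx : x ≠ 0) (hy : y ≠ 0) (h1 : S x) (h2 : S y) : S (x / y) := by
  rw [div_eq_mul_inv]
  exact hS.mul _ _ hx (inv_ne_zero hy) h1 (hS.inv _ hy h2)

/-- Sums of two radicals the difference of whose squares is a square. -/
lemma lin2 (H : RadClosed K F) {p q k : F} (hp : IsRad K p) (hq : IsRad K q)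
    (h : p ^ 2 - q ^ 2 = k ^ 2) (h0 : p + q ≠ 0) : S (p + q) := by
  have h2 := H.two
  by_cases hp0 : p = 0
  · subst hp0; rw [zero_add] at h0 ⊢; exact hS.rad _ h0 hq
  by_cases hk : k = 0
  · subst hk
    have h1 : (p + q) * (p - q) = 0 := by linear_combination h
    have h3 : p - q = 0 := (mul_eq_zero.mp h1).resolve_left h0
    have h4 : p + q = 2 * p := by linear_combination -h3
    rw [h4] at h0 ⊢
    exact hS.rad _ h0 (IsRad.two.mul hp)
  · have h5 : p + q = p * (1 + q / p) := by field_simp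
    have h6 : 1 + q / p ≠ 0 := by
      intro h7; rw [h7, mul_zero] at h5; exact h0 h5
    rw [h5]
    refine hS.mul _ _ hp0 h6 (hS.rad _ hp0 hp) (hS.gen _ (k / p) (hq.div hp)
      (div_ne_zero hk hp0) ?_)
    field_simp
    linear_combination h

/-- Sums of three radicals `r + w + α` with `r ^ 2 = w ^ 2 + α ^ 2`. -/
lemma sum3 (H : RadClosed K F) {r w α : F} (hr : IsRad K r) (hw : IsRad K w)
    (hα : IsRad K α) (h : r ^ 2 = w ^ 2 + α ^ 2) (h0 : r + w + α ≠ 0) : S (r + w + α) := by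
  have h2 := H.two
  obtain ⟨i, hi⟩ := H.exists_i
  have hi' : (algebraMap K F i) ^ 2 = -1 := by rw [← map_pow, hi, map_neg, map_one]
  by_cases hr0 : r = 0
  · subst hr0
    rw [zero_add] at h0 ⊢
    have h1 : (w - algebraMap K F i * α) * (w + algebraMap K F i * α) = 0 := by
      linear_combination -h - α ^ 2 * hi'
    rcases mul_eq_zero.mp h1 with h3 | h3
    · have h4 : w + α = algebraMap K F (i + 1) * α := by
        rw [map_add, map_one]; linear_combination h3
      rw [h4] at h0 ⊢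
      exact hS.rad _ h0 ((IsRad.coe _).mul hα)
    · have h4 : w + α = algebraMap K F (1 - i) * α := by
        rw [map_sub, map_one]; linear_combination h3
      rw [h4] at h0 ⊢
      exact hS.rad _ h0 ((IsRad.coe _).mul hα)
  -- normalise to `r = 1`
  have key : ∀ w α : F, IsRad K w → IsRad K α → w ^ 2 + α ^ 2 = 1 → 1 + w + α ≠ 0 →
      S (1 + w + α) := by
    intro w α hw hα h h0
    by_cases hwα : w + α = 0
    · have h3 : 1 + w + α = 1 := by linear_combination hwα
      rw [h3]; exact hS.rad _ one_ne_zero IsRad.one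
    have hη : IsRad K (algebraMap K F (-2) * (w * α)) := (IsRad.coe _).mul (hw.mul hα)
    obtain ⟨η, hη2⟩ := H.exists_sq _ hη
    have hηr : IsRad K η := IsRad.of_sq (by rw [hη2]; exact hη)
    have hη3 : η ^ 2 = -2 * (w * α) := by rw [hη2, map_neg, map_ofNat]
    by_cases hηe : η + (1 + w + α) = 0
    · have h3 : 1 + w + α = -η := by linear_combination hηe
      rw [h3] at h0 ⊢
      exact hS.rad _ h0 hηr.neg
    have h4 : (η + (1 + w + α)) ^ 2 = 2 * (1 + w + α) * (1 + η) := by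
      linear_combination hη3 + h
    have h5 : 1 - η ^ 2 = (w + α) ^ 2 := by linear_combination -hη3 - h
    have h6 : 1 + η ≠ 0 := by
      intro h7
      rw [h7, mul_zero] at h4
      exact hηe (pow_eq_zero_iff two_ne_zero |>.mp h4)
    have h8 : 1 + w + α = (η + (1 + w + α)) ^ 2 / (2 * (1 + η)) := by
      rw [h4]
      field_simp
    rw [h8]
    refine hS.div (pow_ne_zero 2 hηe) (mul_ne_zero h2 h6) (hS.sq _ hηe)
      (hS.mul _ _ h2 h6 (hS.rad _ h2 IsRad.two) (hS.gen _ _ hηr hwα h5))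
  have h3 : r + w + α = r * (1 + w / r + α / r) := by field_simp
  have h4 : 1 + w / r + α / r ≠ 0 := by
    intro h5; rw [h5, mul_zero] at h3; exact h0 h3
  rw [h3]
  refine hS.mul _ _ hr0 h4 (hS.rad _ hr0 hr) (key _ _ (hw.div hr) (hα.div hr) ?_ h4)
  field_simp
  linear_combination -h

end Orth

end Pool.Agent.Helper35.Pos
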